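import Pool.Agent.Lib.MP_0a9719_co_RR.ExR

/-! MP_0a9719_co: a class with at most one inner neighbour per vertex is mapped onto a matching. -/

namespace MP_0a9719_co_RN

open Finset

/-- a class with at most one inner neighbour per vertex is mapped onto a matching -/
theorem mat_map_n {W V : Type*} [Fintype W] (F : SimpleGraph W) (G : SimpleGraph V) (Q : Set W)
    (hQ2 : ∀ x ∈ Q, ∀ y ∈ Q, ∀ z ∈ Q, F.Adj x y → F.Adj x z → y = z)
    (a b : Fin (Fintype.card W) → V) (ha : Function.Injective a) (hb : Function.Injective b)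
    (hab : ∀ i j, a i ≠ b j) (hadj : ∀ i, G.Adj (a i) (b i)) :
    ∃ φ : W → V, (∀ x ∈ Q, ∀ y ∈ Q, φ x = φ y → x = y) ∧
      (∀ x ∈ Q, ∀ y ∈ Q, F.Adj x y → G.Adj (φ x) (φ y)) ∧
      ∀ x ∈ Q, (∃ i, φ x = a i) ∨ ∃ i, φ x = b i := by
  classical
  let e := Fintype.equivFin W
  let φ : W → V := fun w =>
    if h : ∃ y, y ∈ Q ∧ F.Adj w y ∧ e y < e w then b (e h.choose) else a (e w)
  have hφ1 : ∀ w y, w ∈ Q → y ∈ Q → F.Adj w y → e y < e w → φ w = b (e y) := by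
    intro w y hw hy h1 h2
    have h : ∃ y, y ∈ Q ∧ F.Adj w y ∧ e y < e w := ⟨y, hy, h1, h2⟩
    have h3 : h.choose = y :=
      hQ2 w hw _ h.choose_spec.1 y hy h.choose_spec.2.1 h1
    simp only [φ, dif_pos h, h3]
  have hφ2 : ∀ w, (¬ ∃ y, y ∈ Q ∧ F.Adj w y ∧ e y < e w) → φ w = a (e w) := by
    intro w h
    simp only [φ, dif_neg h]
  have key : ∀ x ∈ Q, ∀ y ∈ Q, F.Adj x y → e x < e y → G.Adj (φ x) (φ y) := by
    intro x hx y hy hxy h
    rw [hφ1 y x hy hx hxy.symm h, hφ2 x]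
    · exact hadj _
    · rintro ⟨z, hz, h1, h2⟩
      have := hQ2 x hx z hz y hy h1 hxy
      subst this
      exact absurd h (not_lt.2 h2.le)
  refine ⟨φ, ?_, ?_, ?_⟩
  · intro x hx y hy hxy
    by_cases h1 : ∃ z, z ∈ Q ∧ F.Adj x z ∧ e z < e x <;>
      by_cases h2 : ∃ z, z ∈ Q ∧ F.Adj y z ∧ e z < e y
    · obtain ⟨z, hz, h3, h4⟩ := h1
      obtain ⟨z', hz', h5, h6⟩ := h2
      rw [hφ1 x z hx hz h3 h4, hφ1 y z' hy hz' h5 h6] at hxy
      have h7 : z = z' := e.injective (hb hxy)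
      subst h7
      exact hQ2 z hz x hx y hy h3.symm h5.symm
    · obtain ⟨z, hz, h3, h4⟩ := h1
      rw [hφ1 x z hx hz h3 h4, hφ2 y h2] at hxy
      exact absurd hxy.symm (hab _ _)
    · obtain ⟨z', hz', h5, h6⟩ := h2
      rw [hφ2 x h1, hφ1 y z' hy hz' h5 h6] at hxy
      exact absurd hxy (hab _ _)
    · rw [hφ2 x h1, hφ2 y h2] at hxy
      exact e.injective (ha hxy)
  · intro x hx y hy hxy
    rcases lt_trichotomy (e x) (e y) with h | h | h
    · exact key x hx y hy hxy h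
    · exact absurd (e.injective h) hxy.ne
    · exact (key y hy x hx hxy.symm h).symm
  · intro x hx
    by_cases h1 : ∃ z, z ∈ Q ∧ F.Adj x z ∧ e z < e x
    · obtain ⟨z, hz, h3, h4⟩ := h1
      exact Or.inr ⟨_, hφ1 x z hx hz h3 h4⟩
    · exact Or.inl ⟨_, hφ2 x h1⟩

end MP_0a9719_co_RN
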