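import Pool.Agent.Lib.MP_0a9719_co_RR.ExR
import Pool.Agent.Lib.MP_0a9719_co_RN.MatN

/-! MP_0a9719_co, `r` classes, edge excess `O(1)`: graphs `F` with `F - c` `r`-colourable and with a
partition into `r` classes, `r - 1` of them independent and one of maximum degree at most one; the
dense case. -/

namespace MP_0a9719_co_RN

open Finset MP_0a9719_co_RR MP_0a9719_co

theorem emb_mat_r {W V : Type*} [Fintype W] {r : ℕ} (F : SimpleGraph W) (G : SimpleGraph V)
    (ρ : W → Fin r) (i₀ : Fin r) (hρ : ∀ u v, F.Adj u v → ρ u = ρ v → ρ u = i₀)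
    (hρ2 : ∀ x y z, ρ x = i₀ → ρ y = i₀ → ρ z = i₀ → F.Adj x y → F.Adj x z → y = z) (i : Fin r)
    (a b : Fin (Fintype.card W) → V) (ha : Function.Injective a) (hb : Function.Injective b)
    (hab : ∀ s t, a s ≠ b t) (hadj : ∀ t, G.Adj (a t) (b t)) (C : Fin r → Finset V)
    (hC : ∀ j, Fintype.card W ≤ (C j).card)
    (hCC : ∀ j l, j ≠ l → ∀ x ∈ C j, ∀ y ∈ C l, G.Adj x y)
    (haC : ∀ t, ∀ j, j ≠ i → ∀ y ∈ C j, G.Adj (a t) y)
    (hbC : ∀ t, ∀ j, j ≠ i → ∀ y ∈ C j, G.Adj (b t) y) : F.IsContained G := by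
  classical
  let σ : Equiv.Perm (Fin r) := Equiv.swap i₀ i
  let ρ' : W → Fin r := fun w => σ (ρ w)
  have hσ : σ i₀ = i := Equiv.swap_apply_left _ _
  have hρ' : ∀ u v, F.Adj u v → ρ' u = ρ' v → ρ' u = i := by
    intro u v huv h
    have h1 := hρ u v huv (σ.injective h)
    change σ (ρ u) = i
    rw [h1, hσ]
  have hback : ∀ w, ρ' w = i → ρ w = i₀ := by
    intro w hw
    apply σ.injective
    rw [hσ]
    exact hw
  obtain ⟨φ, hφ1, hφ2, hφ3⟩ := mat_map_n F G {w | ρ' w = i}
    (fun x hx y hy z hz => hρ2 x y z (hback x hx) (hback y hy) (hback z hz)) a b ha hb hab hadj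
  have hg : ∀ j, Nonempty (W ↪ C j) := by
    intro j
    apply Function.Embedding.nonempty_of_card_le
    simpa using hC j
  have g : ∀ j, W ↪ C j := fun j => (hg j).some
  have hcross : ∀ x, ρ' x = i → ∀ y, ρ' y ≠ i → G.Adj (φ x) (g (ρ' y) y) := by
    intro x hx y hy
    rcases hφ3 x hx with ⟨t, ht⟩ | ⟨t, ht⟩ <;> rw [ht]
    · exact haC t _ hy _ (g _ _).2
    · exact hbC t _ hy _ (g _ _).2
  refine ⟨⟨⟨fun w => if ρ' w = i then φ w else g (ρ' w) w, ?_⟩, ?_⟩⟩
  · intro x y hxy
    by_cases hx : ρ' x = i <;> by_cases hy : ρ' y = i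
    · simpa [hx, hy] using hφ2 x hx y hy hxy
    · simpa [hx, hy] using hcross x hx y hy
    · simpa [hx, hy] using (hcross y hy x hx).symm
    · have hne : ρ' x ≠ ρ' y := fun h => hx (hρ' x y hxy h)
      simpa [hx, hy] using hCC _ _ hne _ (g _ x).2 _ (g _ y).2
  · intro x y hxy
    by_cases hx : ρ' x = i <;> by_cases hy : ρ' y = i
    · exact hφ1 x hx y hy (by simpa [hx, hy] using hxy)
    · have h5 : φ x = g (ρ' y) y := by simpa [hx, hy] using hxy
      exact absurd h5 (hcross x hx y hy).ne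
    · have h5 : (g (ρ' x) x : V) = φ y := by simpa [hx, hy] using hxy
      exact absurd h5 (hcross y hy x hx).ne'
    · have h5 : (g (ρ' x) x : V) = g (ρ' y) y := by simpa [hx, hy] using hxy
      by_cases h6 : ρ' x = ρ' y
      · rw [h6] at h5
        exact (g _).injective (Subtype.ext h5)
      · exact absurd h5 (hCC _ _ h6 _ (g _ x).2 _ (g _ y).2).ne

variable {V : Type*} [DecidableEq V] [Fintype V]

theorem common_r {r : ℕ} (G : SimpleGraph V) (A : Fin r → Finset V) (μ q a ω M : ℕ)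
    (hA : ∀ i j, i ≠ j → ∀ x ∈ A i, (nn G (A j) x).card ≤ μ) (ha : ∀ i, a ≤ (A i).card)
    (cl : V → Fin r) (hmiss : ∀ v j, j ≠ cl v → (nn G (A j) v).card ≤ ω) (i : Fin r)
    (U : Finset V) (hUc : U.card ≤ M) (hUcl : ∀ u ∈ U, cl u = i)
    (hbig : q + r * (q * μ) + M * ω + M ≤ a) :
    ∃ C : Fin r → Finset V, (∀ j, (C j).card = q) ∧
      (∀ j l, j ≠ l → ∀ x ∈ C j, ∀ y ∈ C l, G.Adj x y) ∧ (∀ u ∈ U, u ∉ C i) ∧
      ∀ u ∈ U, ∀ j, j ≠ i → ∀ y ∈ C j, G.Adj u y := by
  classical
  obtain ⟨Z, hZ⟩ : ∃ Z : Fin r → Finset V, ∀ j, Z j = if j = i then A j \ U else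
      (A j).filter (fun y => ∀ u ∈ U, G.Adj u y) := ⟨fun j => _, fun j => rfl⟩
  have hZA : ∀ j, Z j ⊆ A j := by
    intro j
    rw [hZ]
    split_ifs
    · exact sdiff_subset
    · exact filter_subset _ _
  have hZc : ∀ j, q + r * (q * μ) ≤ (Z j).card := by
    intro j
    by_cases hj : j = i
    · rw [hZ, if_pos hj]
      have h2 := le_card_sdiff U (A j)
      have h3 := ha j
      generalize M * ω = z at *
      omega
    · rw [hZ, if_neg hj]
      have h2 : A j ⊆ (A j).filter (fun y => ∀ u ∈ U, G.Adj u y) ∪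
          U.biUnion (fun u => nn G (A j) u) := by
        intro y hy
        rw [mem_union, mem_filter, mem_biUnion]
        by_cases h : ∀ u ∈ U, G.Adj u y
        · exact Or.inl ⟨hy, h⟩
        · push Not at h
          obtain ⟨u, hu, h⟩ := h
          exact Or.inr ⟨u, hu, mem_nn.2 ⟨hy, h⟩⟩
      have h3 := (card_le_card h2).trans (card_union_le _ _)
      have h4 : (U.biUnion (fun u => nn G (A j) u)).card ≤ M * ω := by
        refine card_biUnion_le.trans ((sum_le_card_nsmul _ _ ω ?_).trans ?_)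
        · intro u hu
          exact hmiss u j (by rw [hUcl u hu]; exact hj)
        · rw [smul_eq_mul]
          exact Nat.mul_le_mul_right _ hUc
      have h5 := ha j
      generalize M * ω = z at *
      omega
  obtain ⟨C, hC1, hC2, hC3⟩ := greedy_r G r q μ Z
    (fun i j hij x hx => (nn_mono (hZA j) x).trans (hA i j hij x (hZA i hx))) hZc
  refine ⟨C, hC2, hC3, ?_, ?_⟩
  · intro u hu h
    have h2 := hC1 _ h
    rw [hZ, if_pos rfl] at h2
    exact (mem_sdiff.1 h2).2 hu
  · intro u hu j hj y hy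
    have h2 := hC1 _ hy
    rw [hZ, if_neg hj] at h2
    exact (mem_filter.1 h2).2 u hu

theorem classes_n {W : Type*} [Fintype W] {r : ℕ} (F : SimpleGraph W) (G : SimpleGraph V)
    (κ : W → Fin r) (c : W) (K : Finset W) (hκ : StarCol F κ c K) (ρ : W → Fin r) (i₀ : Fin r)
    (hρ : ∀ u v, F.Adj u v → ρ u = ρ v → ρ u = i₀)
    (hρ2 : ∀ x y z, ρ x = i₀ → ρ y = i₀ → ρ z = i₀ → F.Adj x y → F.Adj x z → y = z)
    (hF : F.Free G) (A : Fin r → Finset V) (μ q a δ D : ℕ) (hq : Fintype.card W = q)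
    (hA : ∀ i j, i ≠ j → ∀ x ∈ A i, (nn G (A j) x).card ≤ μ) (ha : ∀ i, a ≤ (A i).card)
    (hv : ∀ v, (nn G univ v).card ≤ a + δ) (hdisj : ∀ i j, i ≠ j → Disjoint (A i) (A j))
    (hD : D = 2 * q + r * (2 * q * μ))
    (hbig : q + r * (q * μ) + (2 * q + 1) * (δ + D) + (2 * q + 1) ≤ a) :
    ∃ cl : V → Fin r, (∀ v, (nb G (univ.filter (fun w => cl w = cl v)) v).card < q) ∧
      ∀ i, ¬ ∃ a b : Fin q → V, Function.Injective a ∧ Function.Injective b ∧
        (∀ s t, a s ≠ b t) ∧ ∀ t, a t ∈ univ.filter (fun w => cl w = i) ∧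
          b t ∈ univ.filter (fun w => cl w = i) ∧ G.Adj (a t) (b t) := by
  have h1 : ∀ v, ∃ i, (nb G (A i) v).card < D := by
    intro v
    by_contra hcon
    push Not at hcon
    exact hF (many_in_all F G κ c K hκ A μ q hq hA v (fun i => hD ▸ hcon i))
  choose cl hcl using h1
  have hDa : D ≤ a := by
    have : 1 * D ≤ (2 * q + 1) * (δ + D) := Nat.mul_le_mul (by omega) (by omega)
    generalize (2 * q + 1) * (δ + D) = z at *
    omega
  have hmiss : ∀ v j, j ≠ cl v → (nn G (A j) v).card ≤ δ + D := by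
    intro v j hj
    have h2 : (nn G (A j) v).card + (nn G (A (cl v)) v).card ≤ (nn G univ v).card := by
      rw [← card_union_of_disjoint]
      · refine card_le_card ?_
        intro y hy
        rw [mem_union, mem_nn, mem_nn] at hy
        rw [mem_nn]
        rcases hy with hy | hy
        · exact ⟨mem_univ _, hy.2⟩
        · exact ⟨mem_univ _, hy.2⟩
      · refine (hdisj j (cl v) hj).mono ?_ ?_
        · exact fun y hy => (mem_nn.1 hy).1
        · exact fun y hy => (mem_nn.1 hy).1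
    have h3 := nb_nn G (A (cl v)) v
    have h4 := ha (cl v)
    have h5 := hcl v
    have h6 := hv v
    omega
  have hKq : K.card ≤ q := hq ▸ card_le_univ K
  refine ⟨cl, fun v => ?_, fun i => ?_⟩
  · by_contra hcon
    push Not at hcon
    obtain ⟨S, hS, hSc⟩ := exists_subset_card_eq hcon
    have hSm : ∀ x ∈ S, cl x = cl v ∧ G.Adj v x := by
      intro x hx
      have h2 := mem_nb.1 (hS hx)
      exact ⟨(mem_filter.1 h2.1).2, h2.2⟩
    obtain ⟨C, hC2, hC3, hC4, hC5⟩ := common_r G A μ q a (δ + D) (2 * q + 1) hA ha cl hmiss (cl v)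
      (insert v S) ((card_insert_le v S).trans (by omega)) (by
        intro u hu
        rw [mem_insert] at hu
        rcases hu with rfl | hu
        · rfl
        · exact (hSm u hu).1) hbig
    exact hF (emb_r F G κ c K hκ (cl v) C (fun i => (hq.trans (hC2 i).symm).le) hC3 v S
      (hKq.trans hSc.ge) (fun x hx => (hSm x hx).2) (hC4 v (mem_insert_self _ _))
      (fun x hx => hC4 x (mem_insert_of_mem hx)) (fun j hj => hC5 v (mem_insert_self _ _) j hj)
      (fun x hx j hj => hC5 x (mem_insert_of_mem hx) j hj))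
  · rintro ⟨s, t, hs, ht, hst, hm⟩
    subst hq
    obtain ⟨U, hU⟩ : ∃ U, U = univ.image s ∪ univ.image t := ⟨_, rfl⟩
    have hUc : U.card ≤ 2 * Fintype.card W + 1 := by
      have h1 : (univ.image s).card ≤ Fintype.card W := by
        simpa using card_image_le (s := univ) (f := s)
      have h2 : (univ.image t).card ≤ Fintype.card W := by
        simpa using card_image_le (s := univ) (f := t)
      have h3 := card_union_le (univ.image s) (univ.image t)
      rw [hU]
      omega
    have hsU : ∀ x, s x ∈ U := fun x => by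
      rw [hU]
      exact mem_union_left _ (mem_image_of_mem s (mem_univ x))
    have htU : ∀ x, t x ∈ U := fun x => by
      rw [hU]
      exact mem_union_right _ (mem_image_of_mem t (mem_univ x))
    obtain ⟨C, hC2, hC3, hC4, hC5⟩ := common_r G A μ (Fintype.card W) a (δ + D)
      (2 * Fintype.card W + 1) hA ha cl hmiss i U hUc (by
        intro u hu
        simp only [hU, mem_union, mem_image, mem_univ, true_and] at hu
        rcases hu with ⟨x, rfl⟩ | ⟨x, rfl⟩
        · exact (mem_filter.1 (hm x).1).2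
        · exact (mem_filter.1 (hm x).2.1).2) hbig
    exact hF (emb_mat_r F G ρ i₀ hρ hρ2 i s t hs ht hst (fun x => (hm x).2.2) C
      (fun j => (hC2 j).ge) hC3 (fun x j hj => hC5 _ (hsU x) j hj)
      (fun x j hj => hC5 _ (htU x) j hj))

/-- few inner edges -/
theorem inner_sum {r : ℕ} (G : SimpleGraph V) (q : ℕ) (cl : V → Fin r)
    (hcl : ∀ v, (nb G (univ.filter (fun w => cl w = cl v)) v).card < q)
    (hm : ∀ i, ¬ ∃ a b : Fin q → V, Function.Injective a ∧ Function.Injective b ∧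
        (∀ s t, a s ≠ b t) ∧ ∀ t, a t ∈ univ.filter (fun w => cl w = i) ∧
          b t ∈ univ.filter (fun w => cl w = i) ∧ G.Adj (a t) (b t)) :
    ∑ v, (nb G (univ.filter (fun w => cl w = cl v)) v).card ≤
      r * ((2 * q + 2 * q * q) * q) := by
  classical
  have h1 : ∀ i, ∑ v ∈ univ.filter (fun w => cl w = i),
      (nb G (univ.filter (fun w => cl w = i)) v).card ≤ (2 * q + 2 * q * q) * q := by
    intro i
    obtain ⟨S, hS, hS2⟩ := mat_cover G (univ.filter (fun w => cl w = i)) q (hm i)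
    obtain ⟨X, hX⟩ : ∃ X, X = univ.filter (fun w => cl w = i) := ⟨_, rfl⟩
    rw [← hX] at hS2 ⊢
    have hXq : ∀ v ∈ X, (nb G X v).card ≤ q := by
      intro v hv
      have h2 := hcl v
      rw [hX, mem_filter] at hv
      rw [hv.2, ← hX] at h2
      exact h2.le
    obtain ⟨Y, hY⟩ : ∃ Y, Y = X.filter (· ∈ S) ∪
        (X.filter (· ∈ S)).biUnion (fun s => nb G X s) := ⟨_, rfl⟩
    have hYc : Y.card ≤ 2 * q + 2 * q * q := by
      have h3 : (X.filter (· ∈ S)).card ≤ 2 * q := by
        refine (card_le_card ?_).trans hS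
        intro x hx
        exact (mem_filter.1 hx).2
      have h4 : ((X.filter (· ∈ S)).biUnion (fun s => nb G X s)).card ≤ 2 * q * q := by
        refine card_biUnion_le.trans ((sum_le_card_nsmul _ _ q
          (fun x hx => hXq x (mem_filter.1 hx).1)).trans ?_)
        rw [smul_eq_mul]
        exact Nat.mul_le_mul_right _ h3
      rw [hY]
      exact (card_union_le _ _).trans (Nat.add_le_add h3 h4)
    have h5 : ∀ v ∈ X, v ∉ Y → (nb G X v).card = 0 := by
      intro v hv hvY
      rw [card_eq_zero, eq_empty_iff_forall_notMem]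
      intro y hy
      rw [mem_nb] at hy
      rw [hY, mem_union, mem_filter, mem_biUnion] at hvY
      push Not at hvY
      have h6 : v ∉ S := fun h => hvY.1 hv h
      have h7 : y ∉ S := fun h => hvY.2 y (mem_filter.2 ⟨hy.1, h⟩) (mem_nb.2 ⟨hv, hy.2.symm⟩)
      exact hS2 v hv y hy.1 h6 h7 hy.2
    have h6 : ∑ v ∈ X, (nb G X v).card = ∑ v ∈ X.filter (· ∈ Y), (nb G X v).card := by
      rw [sum_filter]
      refine sum_congr rfl fun v hv => ?_
      by_cases h : v ∈ Y
      · rw [if_pos h]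
      · rw [if_neg h, h5 v hv h]
    rw [h6]
    refine (sum_le_card_nsmul _ _ q (fun v hv => hXq v (mem_filter.1 hv).1)).trans ?_
    rw [smul_eq_mul]
    refine Nat.mul_le_mul_right _ ((card_le_card ?_).trans hYc)
    intro v hv
    exact (mem_filter.1 hv).2
  have h2 : ∑ v, (nb G (univ.filter (fun w => cl w = cl v)) v).card =
      ∑ i : Fin r, ∑ v ∈ univ.filter (fun w => cl w = i),
        (nb G (univ.filter (fun w => cl w = i)) v).card := by
    rw [← sum_fiberwise (s := (univ : Finset V)) (g := cl)]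
    refine sum_congr rfl fun i _ => sum_congr rfl fun v hv => ?_
    rw [(mem_filter.1 hv).2]
  rw [h2]
  refine (sum_le_card_nsmul _ _ _ (fun i _ => h1 i)).trans ?_
  simp

theorem sum_n {r : ℕ} (G : SimpleGraph V) (cl : V → Fin r) :
    r * ∑ v, (nb G univ v).card + (Fintype.card V) ^ 2 ≤
      r * (Fintype.card V) ^ 2 +
        r * ∑ v, (nb G (univ.filter (fun w => cl w = cl v)) v).card := by
  classical
  let a : Fin r → ℕ := fun i => (univ.filter (fun w => cl w = i)).card
  have h1 : ∀ v, (nb G univ v).card + a (cl v) ≤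
      (nb G (univ.filter (fun w => cl w = cl v)) v).card + Fintype.card V := by
    intro v
    have h2 : nb G univ v ⊆ nb G (univ.filter (fun w => cl w = cl v)) v ∪
        univ.filter (fun w => ¬ cl w = cl v) := by
      intro y hy
      rw [mem_nb] at hy
      rw [mem_union, mem_nb, mem_filter, mem_filter]
      by_cases h : cl y = cl v
      · exact Or.inl ⟨⟨mem_univ _, h⟩, hy.2⟩
      · exact Or.inr ⟨mem_univ _, h⟩
    have h3 := (card_le_card h2).trans (card_union_le _ _)
    have h4 := card_filter_add_card_filter_not (s := (univ : Finset V)) (fun w => cl w = cl v)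
    rw [card_univ] at h4
    have h6 : a (cl v) = (univ.filter (fun w => cl w = cl v)).card := rfl
    omega
  have h2 : ∑ v, (nb G univ v).card + ∑ v, a (cl v) ≤
      ∑ v, (nb G (univ.filter (fun w => cl w = cl v)) v).card +
        (Fintype.card V) * (Fintype.card V) := by
    rw [← sum_add_distrib]
    refine (sum_le_sum (fun v _ => h1 v)).trans ?_
    rw [sum_add_distrib, sum_const, smul_eq_mul, card_univ]
  have h3 : ∑ v, a (cl v) = ∑ i, a i ^ 2 := by
    rw [← sum_fiberwise (s := (univ : Finset V)) (g := cl)]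
    refine sum_congr rfl fun i _ => ?_
    rw [sum_congr rfl (g := fun _ => a i) (fun v hv => by rw [(mem_filter.1 hv).2]), sum_const,
      smul_eq_mul, pow_two]
  have h4 : ∑ i, a i = Fintype.card V := by
    have := card_eq_sum_card_fiberwise (s := (univ : Finset V)) (t := univ) (f := cl)
      (fun _ _ => mem_univ _)
    rw [card_univ] at this
    exact this.symm
  have h5 : (Fintype.card V) ^ 2 ≤ r * ∑ i, a i ^ 2 := by
    rw [← h4]
    have := sq_sum_le_card_mul_sum_sq (s := (univ : Finset (Fin r))) (f := a)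
    simpa using this
  rw [h3] at h2
  have h6 := Nat.mul_le_mul_left r h2
  rw [mul_add, mul_add, ← pow_two] at h6
  omega

theorem dense_nb {W : Type*} [Fintype W] {r : ℕ} (hr : 2 ≤ r) (F : SimpleGraph W) (c : W)
    (κ : W → Fin r) (hκ : ∀ u v, u ≠ c → v ≠ c → F.Adj u v → κ u ≠ κ v) (ρ : W → Fin r)
    (i₀ : Fin r) (hρ : ∀ u v, F.Adj u v → ρ u = ρ v → ρ u = i₀)
    (hρ2 : ∀ x y z, ρ x = i₀ → ρ y = i₀ → ρ z = i₀ → F.Adj x y → F.Adj x z → y = z) :
    ∃ N C : ℕ, ∀ (V : Type) [Fintype V] [DecidableEq V] (G : SimpleGraph V), F.Free G →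
      N ≤ Fintype.card V → (∀ v, r * (nn G Finset.univ v).card < Fintype.card V) →
      r * ∑ v, (nb G Finset.univ v).card + (Fintype.card V) ^ 2 ≤
        r * (Fintype.card V) ^ 2 + C := by
  classical
  obtain ⟨q, hq⟩ : ∃ q, q = Fintype.card W := ⟨_, rfl⟩
  have hq0 : 0 < q := hq ▸ Fintype.card_pos_iff.2 ⟨c⟩
  obtain ⟨K, hK⟩ : ∃ K : Finset W, K = univ.filter (fun w => F.Adj c w) := ⟨_, rfl⟩
  have hst : StarCol F κ c K := by
    refine ⟨?_, ?_⟩
    · rw [hK, mem_filter]
      exact fun h => F.loopless.irrefl _ h.2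
    · intro s t hst h
      by_cases hs : s = c
      · subst hs
        exact Or.inl ⟨rfl, by rw [hK, mem_filter]; exact ⟨mem_univ _, hst⟩⟩
      · by_cases ht : t = c
        · subst ht
          exact Or.inr ⟨rfl, by rw [hK, mem_filter]; exact ⟨mem_univ _, hst.symm⟩⟩
        · exact absurd h (hκ s t hs ht hst)
  have hKq : K.card ≤ q := hq ▸ card_le_univ K
  obtain ⟨P, hP⟩ : ∃ P, P = r * q + (2 * q + 1) * (1 + 2 * r * q) := ⟨_, rfl⟩
  obtain ⟨Q, hQ⟩ : ∃ Q, Q = q + r * q * q + (2 * q + 1) * (2 * q + 2 * r * q * q) +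
    (2 * q + 1) := ⟨_, rfl⟩
  obtain ⟨m, hm⟩ : ∃ m, m = 4 * q * r * (P + 1) := ⟨_, rfl⟩
  obtain ⟨N, hN⟩ := es_blocks r ((q + 1) * m + q + (q + 1)) hr
  refine ⟨max N (2 * r * ((P + 1) * (r * q) + Q)), r * (r * ((2 * q + 2 * q * q) * q)),
    fun V _ _ G hF hc hdeg => ?_⟩
  obtain ⟨B, hB, hBB⟩ := hN V G ((le_max_left _ _).trans hc) hdeg
  obtain ⟨n, hn⟩ : ∃ n, Fintype.card V = n := ⟨_, rfl⟩
  have hn2 : 2 * r * ((P + 1) * (r * q) + Q) ≤ n := hn ▸ (le_max_right _ _).trans hc
  have hdeg2 : ∀ v, r * (nn G univ v).card < n := fun v => hn ▸ hdeg v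
  obtain ⟨A, b, hb, hdisj, hA, hlow⟩ := blocks_r F G κ c K hst hF B _ q q m n (by omega) hq.symm
    hKq hn hB hBB hdeg2 le_rfl
  obtain ⟨β, hβ⟩ : ∃ β, β = b + r * q := ⟨_, rfl⟩
  have hb2 : 2 * r * (P + 1) * b ≤ n := by
    have h1 : 2 * q * (2 * r * (P + 1) * b) ≤ 2 * q * n := by
      refine le_trans (le_of_eq ?_) hb
      rw [hm]
      ring
    exact Nat.le_of_mul_le_mul_left h1 (by omega)
  have hβn : (P + 1) * β + Q ≤ n / r := by
    rw [Nat.le_div_iff_mul_le (by omega)]
    have h1 : 2 * (((P + 1) * β + Q) * r) = 2 * r * (P + 1) * b +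
        2 * r * ((P + 1) * (r * q) + Q) := by
      rw [hβ]
      ring
    omega
  have hβ2 : β + (P * β + Q) ≤ n / r := by
    refine le_trans (le_of_eq ?_) hβn
    ring
  have hnn : ∀ v, (nn G univ v).card ≤ n / r := by
    intro v
    rw [Nat.le_div_iff_mul_le (by omega), mul_comm]
    exact (hdeg2 v).le
  have hAlow : ∀ i, n / r ≤ (A i).card + β := by
    intro i
    apply Nat.div_le_of_le_mul
    rw [hβ]
    exact hlow i
  obtain ⟨cl, hcl, hmat⟩ := classes_n F G κ c K hst ρ i₀ hρ hρ2 hF A (β + q) q (n / r - β) β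
    (2 * q + r * (2 * q * (β + q))) hq.symm (by rw [hβ]; exact hA)
    (fun i => by have := hAlow i; omega) (fun v => by have := hnn v; omega) hdisj rfl (by
      have h1 : q + r * (q * (β + q)) +
          (2 * q + 1) * (β + (2 * q + r * (2 * q * (β + q)))) + (2 * q + 1) = P * β + Q := by
        rw [hP, hQ]
        ring
      rw [h1]
      omega)
  have h1 := inner_sum G q cl hcl hmat
  have h2 := sum_n G cl
  have h3 := Nat.mul_le_mul_left r h1
  omega

end MP_0a9719_co_RN
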