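import Pool.Agent.Lib.MP_0a9719_co_Fan.FanHost

/-! MP_0a9719_co: the end of the proof of `NearBipartite` for all numbers of colours. -/

namespace MP_0a9719_co_RN

open Finset MP_0a9719_co MP_0a9719_co_Fan

/-- property (P) from the orientation and the upper bound for the number of edges. -/
theorem fin_n {W : Type*} [Nonempty W] (F : SimpleGraph W) (A : W → W → Prop) (hA : IsOr F A)
    (r : ℕ) (hr : 2 ≤ r)
    (hc : ∀ (c : W) (φ : W → Fin r), (∀ u v, u ≠ c → v ≠ c → F.Adj u v → φ u ≠ φ v) →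
      ∀ a : Fin r, ∃ y z, y ≠ z ∧ A c y ∧ A c z ∧ φ y = a ∧ φ z = a)
    (hI : ∃ C : ℕ, ∀ (V : Type) [Fintype V] (G : SimpleGraph V) (M : ℕ),
      Fintype.card V = r * M → F.Free G → G.edgeSet.ncard ≤ r.choose 2 * M ^ 2 + C) :
    PropertyP F := by
  obtain ⟨C, hC⟩ := hI
  refine crit_or F A hA r (by omega)
    (fun c φ hφ => hc c φ (fun u v hu hv huv h => (hφ u v huv h).elim hu hv) (φ c)) ?_
  intro n₀
  refine ⟨max n₀ (2 ^ C + 1), le_max_left _ _, ?_⟩
  set N := max n₀ (2 ^ C + 1) with hN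
  have hNC : 2 ^ C < N := lt_of_lt_of_le (Nat.lt_succ_self _) (le_max_right _ _)
  have h5 : SimpleGraph.extremalNumber (r * N) F ≤ r.choose 2 * N ^ 2 + C := by
    have h6 : Fintype.card (Fin (r * N)) = r * N := Fintype.card_fin _
    rw [← h6, SimpleGraph.extremalNumber_le_iff]
    intro G _ hG
    have h7 := hC (Fin (r * N)) G N h6 hG
    rwa [← SimpleGraph.coe_edgeFinset, Set.ncard_coe_finset] at h7
  calc 2 ^ SimpleGraph.extremalNumber (r * N) F ≤ 2 ^ (r.choose 2 * N ^ 2 + C) :=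
        Nat.pow_le_pow_right (by norm_num) h5
    _ = 2 ^ C * 2 ^ (r.choose 2 * N ^ 2) := by rw [pow_add, mul_comm]
    _ < N * 2 ^ (r.choose 2 * N ^ 2) := Nat.mul_lt_mul_of_pos_right hNC (by positivity)

end MP_0a9719_co_RN
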