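import Pool.Agent.Lib.MP_0a9719_co_RR.ExR
import Pool.Agent.Lib.MP_0a9719_co_RR.NumR

/-! MP_0a9719_co, `r` classes: from graphs of large minimum degree to all graphs, with the exact
Turan numbers. -/

namespace MP_0a9719_co_RN

open Finset MP_0a9719_co_RR

/-- the Turan numbers -/
def turanT (r : ℕ) : ℕ → ℕ
  | 0 => 0
  | n + 1 => turanT r n + (n - n / r)

theorem turanT_eq (r : ℕ) (hr : 1 ≤ r) (n : ℕ) :
    2 * r * turanT r n + n ^ 2 + (n % r) * (r - n % r) = r * n ^ 2 := by
  induction n with
  | zero => simp [turanT]
  | succ n ih =>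
    have hb : n % r < r := Nat.mod_lt _ (by omega)
    have hdiv := Nat.div_add_mod n r
    obtain ⟨m, hm⟩ := Nat.exists_eq_add_of_le (Nat.div_le_self n r)
    have hm2 : n - n / r = m := by omega
    have hT : turanT r (n + 1) = turanT r n + m := by rw [turanT, hm2]
    rw [hT]
    generalize turanT r n = T at *
    generalize hq : n / r = q at *
    generalize hbb : n % r = b at *
    have hdiv' : (r : ℤ) * q + b = n := by exact_mod_cast hdiv
    have hm' : (n : ℤ) = q + m := by exact_mod_cast hm
    rcases Nat.lt_or_ge (b + 1) r with h | h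
    · obtain ⟨d, hd⟩ := Nat.exists_eq_add_of_le h.le
      have h1 : (n + 1) % r = b + 1 := by
        rw [← hdiv, add_assoc, Nat.mul_add_mod_self_left, Nat.mod_eq_of_lt h]
      have h2 : r - (b + 1) = d := by omega
      have h3 : r - b = d + 1 := by omega
      rw [h1, h2]
      rw [h3] at ih
      have ih' : (2 * r * T + n ^ 2 + b * (d + 1) : ℤ) = r * n ^ 2 := by exact_mod_cast ih
      have hr' : (r : ℤ) = b + 1 + d := by exact_mod_cast hd
      have : (2 * r * (T + m) + (n + 1) ^ 2 + (b + 1) * d : ℤ) = r * (n + 1) ^ 2 := by
        linear_combination ih' - 2 * r * hm' - 2 * hdiv' - hr'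
      exact_mod_cast this
    · have hrb : r = b + 1 := by omega
      have h1 : (n + 1) % r = 0 := by
        rw [← hdiv, add_assoc, Nat.mul_add_mod_self_left, ← hrb, Nat.mod_self]
      have h3 : r - b = 1 := by omega
      rw [h1, zero_mul]
      rw [h3] at ih
      have ih' : (2 * r * T + n ^ 2 + b * 1 : ℤ) = r * n ^ 2 := by exact_mod_cast ih
      have hr' : (r : ℤ) = b + 1 := by exact_mod_cast hrb
      have : (2 * r * (T + m) + (n + 1) ^ 2 + 0 : ℤ) = r * (n + 1) ^ 2 := by
        linear_combination ih' - 2 * r * hm' - 2 * hdiv' - hr'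
      exact_mod_cast this

theorem turanT_mul (r : ℕ) (hr : 1 ≤ r) (M : ℕ) : turanT r (r * M) = r.choose 2 * M ^ 2 := by
  have h1 := turanT_eq r hr (r * M)
  rw [Nat.mul_mod_right, zero_mul, add_zero] at h1
  have h2 := MP_0a9719_co.two_choose r
  have h3 : r * (2 * turanT r (r * M) + r * M ^ 2) = r * (r * r * M ^ 2) := by
    nlinarith
  have h4 := Nat.eq_of_mul_eq_mul_left (by omega) h3
  rw [← h2] at h4
  have h5 : (2 * r.choose 2 + r) * M ^ 2 = 2 * (r.choose 2 * M ^ 2) + r * M ^ 2 := by ring
  rw [h5] at h4
  omega

theorem ind_nb {W : Type*} {r : ℕ} (hr : 2 ≤ r) (F : SimpleGraph W)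
    (hd : ∃ N C : ℕ, ∀ (V : Type) [Fintype V] [DecidableEq V] (G : SimpleGraph V), F.Free G →
      N ≤ Fintype.card V → (∀ v, r * (nn G Finset.univ v).card < Fintype.card V) →
      r * ∑ v, (nb G Finset.univ v).card + (Fintype.card V) ^ 2 ≤
        r * (Fintype.card V) ^ 2 + C) :
    ∃ C' : ℕ, ∀ (V : Type) [Fintype V] (G : SimpleGraph V) (M : ℕ), Fintype.card V = r * M →
      F.Free G → G.edgeSet.ncard ≤ r.choose 2 * M ^ 2 + C' := by
  classical
  obtain ⟨N, C, hN⟩ := hd
  refine ⟨N ^ 2 + (r ^ 2 + C), fun V _ G M hM hG => ?_⟩
  have hcard : ∀ (X : Finset V) (x : V), (X.filter (G.Adj x)).card = (nb G X x).card := by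
    intro X x
    have h1 : X.filter (G.Adj x) = nb G X x := by
      ext y
      rw [mem_filter, mem_nb]
    rw [h1]
  have key : ∀ n, ∀ X : Finset V, X.card = n →
      ∑ x ∈ X, (X.filter (G.Adj x)).card ≤ 2 * turanT r n + (N ^ 2 + (r ^ 2 + C)) := by
    intro n
    induction n with
    | zero =>
      intro X hX
      rw [card_eq_zero.1 hX]
      simp
    | succ n ih =>
      intro X hX
      by_cases hn : n + 1 < N
      · have h1 : ∑ x ∈ X, (X.filter (G.Adj x)).card ≤ X.card * X.card := by
          refine (sum_le_card_nsmul X _ X.card fun x _ => card_filter_le _ _).trans ?_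
          rw [smul_eq_mul]
        rw [hX] at h1
        have h2 : (n + 1) * (n + 1) ≤ N ^ 2 := by nlinarith
        omega
      · by_cases hv : ∃ v ∈ X, n + 1 ≤ r * (nn G X v).card
        · obtain ⟨v, hv, hvd⟩ := hv
          have h4 := MP_0a9719_co.sum_deg_insert G (X.erase v) v (notMem_erase v X)
          rw [insert_erase hv] at h4
          have h5 := ih (X.erase v) (by rw [card_erase_of_mem hv, hX]; rfl)
          rw [h4, hcard X v]
          have h6 := nb_nn G X v
          rw [hX] at h6
          have h7 : n / r < (nn G X v).card := by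
            rw [Nat.div_lt_iff_lt_mul (by omega), mul_comm]
            omega
          have h8 : turanT r (n + 1) = turanT r n + (n - n / r) := rfl
          have h9 := Nat.div_le_self n r
          rw [h8]
          generalize n / r = q at *
          omega
        · push Not at hv
          let H : SimpleGraph X := G.comap (fun x : X => (x : V))
          have hnb : ∀ x : X, (nb H univ x).card = (nb G X x).card := by
            intro x
            apply card_nbij (fun y : X => (y : V))
            · intro y hy
              have hy' := mem_nb.1 (mem_coe.1 hy)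
              exact mem_coe.2 (mem_nb.2 ⟨y.2, hy'.2⟩)
            · intro y _ z _ h
              exact Subtype.ext h
            · intro y hy
              have hy' := mem_nb.1 (mem_coe.1 hy)
              exact ⟨⟨y, hy'.1⟩, mem_coe.2 (mem_nb.2 ⟨mem_univ _, hy'.2⟩), rfl⟩
          have hcX : Fintype.card X = n + 1 := by rw [Fintype.card_coe, hX]
          have hnnX : ∀ x : X, (nn H univ x).card = (nn G X x).card := by
            intro x
            have h1 := nb_nn H univ x
            have h2 := nb_nn G X x
            rw [card_univ, hcX] at h1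
            rw [hX] at h2
            have h3 := hnb x
            omega
          have hHF : F.Free H := by
            rintro ⟨f⟩
            refine hG ⟨⟨⟨fun w => (f w : V), fun h => f.toHom.map_adj h⟩, fun a b h => ?_⟩⟩
            exact f.injective (Subtype.ext h)
          have h4 := hN X H hHF (by rw [hcX]; omega) (fun x => by
            rw [hcX, hnnX]
            exact hv x x.2)
          rw [hcX] at h4
          have h5 : ∑ x : X, (nb H univ x).card = ∑ x ∈ X, (X.filter (G.Adj x)).card := by
            rw [← sum_coe_sort X (fun x => (X.filter (G.Adj x)).card)]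
            exact sum_congr rfl (fun x _ => (hnb x).trans (hcard X x).symm)
          rw [h5] at h4
          have h6 := turanT_eq r (by omega) (n + 1)
          have h7 : ((n + 1) % r) * (r - (n + 1) % r) ≤ r ^ 2 := by
            rw [sq]
            exact Nat.mul_le_mul (Nat.mod_lt _ (by omega)).le (Nat.sub_le _ _)
          have h8 : r * (∑ x ∈ X, (X.filter (G.Adj x)).card) ≤
              r * (2 * turanT r (n + 1) + (r ^ 2 + C)) := by
            have h9 : r ^ 2 + C ≤ r * (r ^ 2 + C) := Nat.le_mul_of_pos_left _ (by omega)
            have h10 : r * (2 * turanT r (n + 1) + (r ^ 2 + C)) =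
                2 * r * turanT r (n + 1) + r * (r ^ 2 + C) := by ring
            rw [h10]
            generalize r * (r ^ 2 + C) = z1 at *
            generalize 2 * r * turanT r (n + 1) = z2 at *
            generalize r * (n + 1) ^ 2 = z3 at *
            generalize (n + 1) ^ 2 = z4 at *
            generalize r * (∑ x ∈ X, (X.filter (G.Adj x)).card) = z5 at *
            generalize ((n + 1) % r) * (r - (n + 1) % r) = z6 at *
            generalize r ^ 2 = z7 at *
            omega
          have h9 := Nat.le_of_mul_le_mul_left h8 (by omega)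
          omega
  have h1 := key _ univ rfl
  have h2 := G.sum_degrees_eq_twice_card_edges
  have h3 : ∀ x, G.degree x = (univ.filter (G.Adj x)).card := by
    intro x
    rw [← SimpleGraph.card_neighborFinset_eq_degree, SimpleGraph.neighborFinset_eq_filter]
  simp only [h3] at h2
  rw [h2, card_univ, hM, turanT_mul r (by omega)] at h1
  rw [Set.ncard_eq_toFinset_card']
  change G.edgeFinset.card ≤ _
  omega

end MP_0a9719_co_RN
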